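import Pool.Agent.MP_e70dc0_co.H36.Rank

/-! The family of sizes attached to a group of rotations of finite rank. -/

set_option autoImplicit false

namespace Pool.Agent.MP_e70dc0_co.H36

open Finset Module Polynomial H56

theorem tri_val {Λ : Type} [LinearOrderedCommGroupWithZero Λ] (v : Valuation ℂ Λ) (φ : ℂ →+* ℂ) :
    Tri (fun z => v (φ z)) 1 where
  one_le := le_rfl
  neg z := by simp
  tri z w := by
    rw [map_add, one_mul]
    exact v.map_add _ _
  zero z := by simp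

/-- the size given by a valuation -/
noncomputable def szVal (V : ValuationSubring ℂ) : Sz where
  Λ := V.ValueGroup
  N := V.valuation.toMonoidWithZeroHom
  β := 1
  tri := tri_val V.valuation (RingHom.id ℂ)
  ball := ball_of_hyp (tri_val V.valuation (RingHom.id ℂ))
    (hyp_one (tri_val V.valuation (RingHom.id ℂ)))
  ball' := ball_of_hyp (tri_val V.valuation (starRingEnd ℂ))
    (hyp_one (tri_val V.valuation (starRingEnd ℂ)))

/-- the size given by a field embedding -/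
noncomputable def szEmb (φ : ℂ →+* ℂ) : Sz where
  Λ := NNReal
  N := nnnormHom.comp φ.toMonoidWithZeroHom
  β := 2
  tri := tri_emb φ
  ball := ball_of_hyp (tri_emb φ) (hyp_emb φ)
  ball' := ball_of_hyp (tri_emb (φ.comp (starRingEnd ℂ))) (hyp_emb (φ.comp (starRingEnd ℂ)))

theorem exists_val {x : ℂ} (hx : ¬ IsIntegral ℤ x) :
    ∃ V : ValuationSubring ℂ, V.valuation x ≠ 1 := by
  have : IsIntegrallyClosedIn (integralClosure ℤ ℂ).toSubring ℂ :=
    inferInstanceAs (IsIntegrallyClosedIn (integralClosure ℤ ℂ) ℂ)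
  obtain ⟨V, -, hV⟩ := Subring.exists_le_valuationSubring_of_isIntegrallyClosedIn
    (R := (integralClosure ℤ ℂ).toSubring) (x := x) hx
  exact ⟨V, fun e => hV ((V.valuation_le_one_iff x).1 e.le)⟩

theorem exists_vals {ρ : ℕ} (Γ : Subgroup ℂˣ) (hΓ : Module.rank ℤ (Additive Γ) ≤ ρ) :
    ∃ V : Fin (ρ + 1) → ValuationSubring ℂ, ∀ θ ∈ Γ,
      (∀ i, (V i).valuation (θ : ℂ) = 1) → IsIntegral ℤ (θ : ℂ) := by
  obtain ⟨ψ, hψ⟩ : ∃ ψ : Additive Γ → ℂˣ, ∀ e, ψ e = (e.toMul : Γ) := ⟨_, fun _ => rfl⟩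
  have ψadd : ∀ e e', ψ (e + e') = ψ e * ψ e' := fun e e' => by simp [hψ]
  have ψsmul : ∀ (c : ℤ) e, ψ (c • e) = ψ e ^ c := fun c e => by simp [hψ]
  have ψ0 : ψ 0 = 1 := by simp [hψ]
  have ker : ∀ V : ValuationSubring ℂ, ∃ W : Submodule ℤ (Additive Γ),
      ∀ e, e ∈ W ↔ V.valuation (ψ e : ℂ) = 1 := fun V =>
    ⟨{ carrier := {e | V.valuation (ψ e : ℂ) = 1}
       zero_mem' := by simp [ψ0]
       add_mem' := fun {a b} ha hb => by
        simp only [Set.mem_ofPred_eq, ψadd, Units.val_mul, map_mul] at ha hb ⊢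
        rw [ha, hb, one_mul]
       smul_mem' := fun c a ha => by
        simp only [Set.mem_ofPred_eq, ψsmul, Units.val_zpow_eq_zpow_val, map_zpow₀] at ha ⊢
        rw [ha, one_zpow] }, fun _ => Iff.rfl⟩
  have main : ∀ j : ℕ, ∀ W : Submodule ℤ (Additive Γ),
      (∃ V : Fin j → ValuationSubring ℂ, ∀ e ∈ W, (∀ i, (V i).valuation (ψ e : ℂ) = 1) →
        IsIntegral ℤ (ψ e : ℂ)) ∨
      ∃ u : Fin j → Additive Γ, (∀ i, u i ∈ W) ∧ LinearIndependent ℤ u := by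
    intro j
    induction j with
    | zero => exact fun W => Or.inr ⟨Fin.elim0, fun i => i.elim0, linearIndependent_empty_type⟩
    | succ j ih =>
      intro W
      by_cases h : ∀ e ∈ W, IsIntegral ℤ (ψ e : ℂ)
      · exact Or.inl ⟨fun _ => ⊤, fun e he _ => h e he⟩
      simp only [not_forall] at h
      obtain ⟨e, he, hi⟩ := h
      obtain ⟨V, hV⟩ := exists_val hi
      obtain ⟨W', hW'⟩ := ker V
      rcases ih (W ⊓ W') with ⟨V', h⟩ | ⟨u, h1, h2⟩
      · exact Or.inl ⟨Fin.cons V V', fun a ha k =>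
          h a ⟨ha, (hW' a).2 (k 0)⟩ fun i => k i.succ⟩
      · refine Or.inr ⟨Fin.cons e u, fun i => Fin.cases he (fun i => (h1 i).1) i,
          h2.finCons' e u fun c y hy hc => ?_⟩
        have k1 : y ∈ W' := (Submodule.span_le.2 (Set.range_subset_iff.2 fun i => (h1 i).2)) hy
        have k2 : c • e ∈ W' := by
          rw [eq_neg_of_add_eq_zero_left hc]
          exact W'.neg_mem k1
        rw [hW', ψsmul, Units.val_zpow_eq_zpow_val, map_zpow₀] at k2
        exact (zpow_eq_one_iff_right₀ zero_le hV).1 k2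
  rcases main (ρ + 1) ⊤ with ⟨V, h⟩ | ⟨u, -, h⟩
  · refine ⟨V, fun θ hθ k => ?_⟩
    have e : ψ (Additive.ofMul ⟨θ, hθ⟩) = θ := hψ _
    rw [← e] at k ⊢
    exact h _ trivial k
  · have := h.cardinal_le_rank.trans hΓ
    rw [Cardinal.mk_fin, Nat.cast_le] at this
    omega

theorem lift_hom {R S M : Type} [CommRing R] [IsDomain R] [Field S] [Algebra R S] [Field M]
    [IsAlgClosed M] [Algebra.IsAlgebraic R S] (hi : Function.Injective (algebraMap R S))
    (f : R →+* M) (hf : Function.Injective f) : ∃ φ : S →+* M, ∀ r, φ (algebraMap R S r) = f r := by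
  let := f.toAlgebra
  have := (faithfulSMul_iff_algebraMap_injective R S).2 hi
  have := (faithfulSMul_iff_algebraMap_injective R M).2 hf
  exact ⟨(IsAlgClosed.lift : S →ₐ[R] M).toRingHom, fun r => AlgHom.commutes _ r⟩

theorem ext_emb (F : IntermediateField ℚ ℂ) [FiniteDimensional ℚ F] (σ : F →+* ℂ) :
    ∃ φ : ℂ →+* ℂ, ∀ x : F, φ x = σ x := by
  obtain ⟨T, hT⟩ := exists_isTranscendenceBasis F ℂ
  have h1 : AlgebraicIndependent ℚ ((↑) : T → ℂ) :=
    hT.1.restrictScalars (algebraMap ℚ F).injective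
  have : Algebra.IsAlgebraic ℚ σ.toRatAlgHom.fieldRange :=
    (AlgEquiv.ofInjectiveField σ.toRatAlgHom).isAlgebraic
  have h2 := h1.extendScalars σ.toRatAlgHom.fieldRange
  have h3 : Function.Injective (MvPolynomial.eval₂Hom σ ((↑) : T → ℂ)) := by
    have h4 := Function.Injective.comp h2 (MvPolynomial.map_injective (σ := T)
      (AlgEquiv.ofInjectiveField σ.toRatAlgHom).toRingEquiv.toRingHom
      (AlgEquiv.ofInjectiveField σ.toRatAlgHom).injective)
    convert h4 using 1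
    ext p
    exact (MvPolynomial.eval₂_map (AlgEquiv.ofInjectiveField σ.toRatAlgHom).toRingEquiv.toRingHom
      ((↑) : T → ℂ) (algebraMap σ.toRatAlgHom.range ℂ) p).symm
  have := hT.isAlgebraic
  obtain ⟨φ, hφ⟩ := lift_hom (R := Algebra.adjoin F (Set.range ((↑) : T → ℂ))) (S := ℂ)
    Subtype.val_injective ((MvPolynomial.eval₂Hom σ ((↑) : T → ℂ)).comp
      hT.1.aevalEquiv.symm.toRingEquiv.toRingHom) (h3.comp hT.1.aevalEquiv.symm.injective)
  refine ⟨φ, fun x => (hφ (algebraMap F _ x)).trans ?_⟩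
  simp

theorem northcott (d : ℕ) (B : ℝ) : ∃ Z : Finset ℂ, ∀ (F : IntermediateField ℚ ℂ)
    [FiniteDimensional ℚ F], finrank ℚ F ≤ d → ∀ x : F, IsIntegral ℤ (x : ℂ) →
      (∀ σ : F →+* ℂ, ‖σ x‖ ≤ B) → (x : ℂ) ∈ Z := by
  classical
  let C := Nat.ceil (max B 1 ^ d * 2 ^ d)
  have := bUnion_roots_finite (algebraMap ℤ ℂ) d (Set.finite_Icc (-C : ℤ) C)
  refine ⟨this.toFinset, fun F _ hd x hx hσ => ?_⟩
  have : NumberField F := {}
  have hx' : IsIntegral ℤ x := (isIntegral_algHom_iff (F.val.restrictScalars ℤ)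
    Subtype.val_injective).1 hx
  rw [Set.Finite.mem_toFinset]
  simp_rw [Set.mem_iUnion]
  have hm := minpoly.isIntegrallyClosed_eq_field_fractions' ℚ hx'
  refine ⟨minpoly ℤ x, ⟨?_, fun i => ?_⟩, mem_rootSet.2 ⟨minpoly.ne_zero hx', ?_⟩⟩
  · rw [← (minpoly.monic hx').natDegree_map (algebraMap ℤ ℚ), ← hm]
    exact (minpoly.natDegree_le x).trans hd
  · rw [Set.mem_Icc, ← abs_le, ← @Int.cast_le ℝ]
    refine ((Eq.trans_le ?_ <| NumberField.Embeddings.coeff_bdd_of_norm_le hσ i).trans ?_).trans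
      (Nat.le_ceil _)
    · rw [hm, coeff_map, eq_intCast, Int.norm_cast_rat, Int.norm_eq_abs, Int.cast_abs]
    · refine mul_le_mul (pow_le_pow_right₀ (le_max_right _ _) hd) ?_ (by positivity)
        (by positivity)
      exact_mod_cast (Nat.choose_le_two_pow _ _).trans (Nat.pow_le_pow_right (by norm_num) hd)
  · have := aeval_algHom_apply (F.val.restrictScalars ℤ) x (minpoly ℤ x)
    rw [minpoly.aeval, map_zero] at this
    exact this

theorem finite_rank (ρ d K C : ℕ) :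
    ∃ n0 : ℕ, ∀ (Γ : Subgroup ℂˣ) (F : IntermediateField ℚ ℂ) (P : Finset ℂ),
      Module.rank ℤ (Additive Γ) ≤ ρ → FiniteDimensional ℚ F → finrank ℚ F ≤ d →
      (∀ θ ∈ Γ, ‖(θ : ℂ)‖ = 1 → IsIntegral ℤ (θ : ℂ) → (θ : ℂ) ∈ F) →
      n0 ≤ #P → ThreeAPFree (P : Set ℂ) → Circ P K →
      (∀ a ∈ P, ∀ b ∈ P, ∀ a' ∈ P, ∀ b' ∈ P, a ≠ b → ‖a - b‖ = ‖a' - b'‖ →
        ∃ θ ∈ Γ, a - b = (θ : ℂ) * (a' - b')) →
      C * #P < #(Ds P) := by
  choose Z hZ using fun M : ℕ => northcott d (2 ^ M)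
  obtain ⟨n0, h⟩ := main_abs (Fin (ρ + 1) ⊕ Fin d) K C fun M => #(Z M)
  refine ⟨n0, fun Γ F P hΓ hF hd hI hn h3 hK hθ => ?_⟩
  obtain ⟨V, hV⟩ := exists_vals Γ hΓ
  have : NumberField F := {}
  choose φ hφ using ext_emb F
  obtain ⟨e, he⟩ : ∃ e : Fin d → (F →+* ℂ), Function.Surjective e := by
    obtain ⟨j⟩ : Nonempty ((F →+* ℂ) ↪ Fin d) := Function.Embedding.nonempty_of_card_le (by
      rw [NumberField.Embeddings.card, Fintype.card_fin]
      exact hd)
    have : Nonempty (F →+* ℂ) := ⟨F.val.toRingHom⟩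
    exact ⟨Function.invFun j, Function.invFun_surjective j.injective⟩
  refine h P (Sum.elim (fun i => szVal (V i)) fun j => szEmb (φ (e j)))
    {x | ∃ θ ∈ Γ, (θ : ℂ) = x} hn h3 hK ?_ ?_ fun M =>
      ⟨Z M, le_rfl, ?_⟩
  · rintro _ ⟨θ, h1, rfl⟩ _ ⟨η, h2, rfl⟩
    exact ⟨θ / η, div_mem h1 h2, by simp⟩
  · intro a ha b hb a' ha' b' hb' hab hl
    obtain ⟨θ, h1, h2⟩ := hθ a ha b hb a' ha' b' hb' hab hl
    refine ⟨θ, h1, ?_⟩
    rw [h2, mul_div_cancel_right₀]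
    intro h0
    rw [h0, mul_zero] at h2
    exact hab (sub_eq_zero.1 h2)
  · rintro _ ⟨θ, h1, rfl⟩ h2 h3
    have h4 : IsIntegral ℤ (θ : ℂ) := hV θ h1 fun i => by
      obtain ⟨k1, k2⟩ := h3 (Sum.inl i)
      have k3 : (V i).valuation (θ : ℂ) ≤ 1 ^ M := k1
      have k4 : (V i).valuation (θ : ℂ)⁻¹ ≤ 1 ^ M := k2
      rw [one_pow] at k3 k4
      rw [map_inv₀, inv_le_one₀ (zero_lt_iff.2 (by simp))] at k4
      exact le_antisymm k3 k4
    refine hZ M F hd ⟨θ, hI θ h1 h2 h4⟩ h4 fun σ => ?_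
    obtain ⟨j, rfl⟩ := he σ
    have k : ‖φ (e j) (θ : ℂ)‖₊ ≤ 2 ^ M := (h3 (Sum.inr j)).1
    rw [← hφ]
    exact_mod_cast k

/-- a finitely generated group has finite rank and its algebraic integers lie in a number field -/
theorem fg_ok (Γ : Subgroup ℂˣ) (hΓ : Γ.FG) : ∃ (ρ : ℕ) (F : IntermediateField ℚ ℂ),
    Module.rank ℤ (Additive Γ) ≤ ρ ∧ FiniteDimensional ℚ F ∧
      ∀ θ ∈ Γ, IsIntegral ℤ (θ : ℂ) → (θ : ℂ) ∈ F := by
  classical
  have : Group.FG Γ := (Group.fg_iff_subgroup_fg Γ).2 hΓ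
  have : Module.Finite ℤ (Additive Γ) := Module.Finite.iff_addGroup_fg.2 inferInstance
  obtain ⟨ψ, hψ⟩ : ∃ ψ : Additive Γ → ℂˣ, ∀ e, ψ e = (e.toMul : Γ) := ⟨_, fun _ => rfl⟩
  have ψadd : ∀ e e', ψ (e + e') = ψ e * ψ e' := fun e e' => by simp [hψ]
  have ψsmul : ∀ (c : ℤ) e, ψ (c • e) = ψ e ^ c := fun c e => by simp [hψ]
  have ψ0 : ψ 0 = 1 := by simp [hψ]
  have sub : ∀ E : IntermediateField ℚ ℂ, ∃ W : Submodule ℤ (Additive Γ),
      ∀ e, e ∈ W ↔ (ψ e : ℂ) ∈ E := fun E =>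
    ⟨{ carrier := {e | (ψ e : ℂ) ∈ E}
       zero_mem' := by simp [ψ0]
       add_mem' := fun {a b} ha hb => by
        simp only [Set.mem_ofPred_eq, ψadd, Units.val_mul] at ha hb ⊢
        exact mul_mem ha hb
       smul_mem' := fun c a ha => by
        simp only [Set.mem_ofPred_eq, ψsmul, Units.val_zpow_eq_zpow_val] at ha ⊢
        exact zpow_mem ha c }, fun _ => Iff.rfl⟩
  obtain ⟨W, hW⟩ := sub (algebraicClosure ℚ ℂ)
  obtain ⟨s, hs⟩ := IsNoetherian.noetherian W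
  obtain ⟨W', hW'⟩ := sub (IntermediateField.adjoin ℚ (s.image fun e => (ψ e : ℂ) : Finset ℂ))
  refine ⟨finrank ℤ (Additive Γ), _, (finrank_eq_rank ℤ _).ge,
    IntermediateField.finiteDimensional_adjoin
    (S := (s.image fun e => (ψ e : ℂ) : Finset ℂ)) fun x hx => ?_, fun θ hθ hi => ?_⟩
  · obtain ⟨e, he, rfl⟩ := mem_image.1 (mem_coe.1 hx)
    exact mem_algebraicClosure_iff'.1 ((hW e).1 (hs ▸ Submodule.subset_span he))
  · have e : ψ (Additive.ofMul ⟨θ, hθ⟩) = θ := hψ _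
    rw [← e] at hi ⊢
    have h1 : Additive.ofMul ⟨θ, hθ⟩ ∈ Submodule.span ℤ (s : Set (Additive Γ)) :=
      hs ▸ (hW _).2 (mem_algebraicClosure_iff'.2 hi.tower_top)
    exact (hW' _).1 (Submodule.span_le.2 (fun a ha => (hW' a).2
      (IntermediateField.subset_adjoin _ _ (mem_coe.2 (mem_image_of_mem _ ha)))) h1)

end Pool.Agent.MP_e70dc0_co.H36
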