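import Pool.Agent.MP_e70dc0_co.H36.Size
import Pool.Agent.MP_e70dc0_co.H56.Energy

/-! Few distances and a finite family of sizes that controls the rotations. -/

set_option autoImplicit false

namespace Pool.Agent.MP_e70dc0_co.H36

open Finset Filter H56

/-- all distances, zero included -/
noncomputable def Ds (P : Finset ℂ) : Finset ℝ := (P ×ˢ P).image fun x => ‖x.1 - x.2‖

theorem mem_Ds {P : Finset ℂ} {a b : ℂ} (ha : a ∈ P) (hb : b ∈ P) : ‖a - b‖ ∈ Ds P :=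
  mem_image.2 ⟨(a, b), mem_product.2 ⟨ha, hb⟩, rfl⟩

theorem common_dist {P A B : Finset ℂ} {K : ℕ} (hK : Circ P K) (hA : A ⊆ P) (hB : B ⊆ P)
    (hP : P.Nonempty) :
    ∃ B' ⊆ B, ∃ s : ℝ, #A * #B ≤ K * #B' * #(Ds P) ∧ ∀ b ∈ B', ∃ a ∈ A, ‖b - a‖ = s := by
  obtain ⟨p, hp⟩ := hP
  obtain ⟨s, -, hs⟩ := exists_max_image (Ds P) (fun s => #{x ∈ A ×ˢ B | ‖x.2 - x.1‖ = s})
    ⟨_, mem_Ds hp hp⟩
  have h1 := card_le_mul_card_image_of_maps_to (s := A ×ˢ B) (f := fun x => ‖x.2 - x.1‖)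
    (t := Ds P) (fun x hx => mem_Ds (hB (mem_product.1 hx).2) (hA (mem_product.1 hx).1)) _ hs
  have h2 := card_le_mul_card_image (f := Prod.snd) {x ∈ A ×ˢ B | ‖x.2 - x.1‖ = s} K
    (fun b _ => by
      refine (card_le_card_of_injOn Prod.fst (fun x hx => ?_) fun x hx y hy e => ?_).trans (hK b s)
      · obtain ⟨k1, k2⟩ := mem_filter.1 (mem_coe.1 hx)
        obtain ⟨k3, k4⟩ := mem_filter.1 k1
        exact mem_coe.2 (mem_filter.2 ⟨hA (mem_product.1 k3).1, by rw [← k2, norm_sub_rev, k4]⟩)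
      · exact Prod.ext e ((mem_filter.1 (mem_coe.1 hx)).2.trans
          (mem_filter.1 (mem_coe.1 hy)).2.symm))
  refine ⟨image Prod.snd {x ∈ A ×ˢ B | ‖x.2 - x.1‖ = s}, fun b hb => ?_, s, ?_, fun b hb => ?_⟩
  · obtain ⟨x, hx, rfl⟩ := mem_image.1 hb
    exact (mem_product.1 (mem_filter.1 hx).1).2
  · rw [← card_product]
    exact h1.trans (Nat.mul_le_mul_right _ h2)
  · obtain ⟨x, hx, rfl⟩ := mem_image.1 hb
    exact ⟨x.1, (mem_product.1 (mem_filter.1 hx).1).1, (mem_filter.1 hx).2⟩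

theorem energy_big {P A B Z : Finset ℂ} {K L C t : ℕ} (hK : Circ P K) (hK1 : 1 ≤ K) (hA : A ⊆ P)
    (hB : B ⊆ P) (hd : Disjoint A B) (h1 : #P ≤ L * #A) (h2 : #P ≤ L * #B)
    (hD : #(Ds P) ≤ C * #P) (hZ : #Z ≤ t)
    (hθ : ∀ a ∈ A, ∀ c ∈ A, ∀ b ∈ B, ∀ d ∈ B, ∀ b' ∈ B, ∀ d' ∈ B, ‖a - b‖ = ‖c - d‖ →
      ‖a - b'‖ = ‖c - d'‖ → (a - b) / (c - d) / ((a - b') / (c - d')) ∈ Z)
    {η : ℝ} (hη : 0 < η) (hη1 : 2 * η * t * (L ^ 4 * C) ≤ 1) (h3 : 2 ≤ η * #P) :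
    η ^ 14 * t * (#P : ℝ) ^ 3 ≤ 24 * K * en P := by
  have hn : (0 : ℝ) < #P := by
    by_contra h
    have : (#P : ℝ) = 0 := le_antisymm (not_lt.1 h) (Nat.cast_nonneg _)
    rw [this] at h3
    norm_num at h3
  have ne : ∀ a ∈ A, ∀ b ∈ B, a - b ≠ 0 := fun a ha b hb e =>
    disjoint_left.1 hd ha (sub_eq_zero.1 e ▸ hb)
  obtain ⟨Ω, hΩ⟩ : ∃ Ω, Ω = {x ∈ (A ×ˢ B) ×ˢ (A ×ˢ B) |
    ‖x.1.1 - x.1.2‖ = ‖x.2.1 - x.2.2‖} := ⟨_, rfl⟩
  have mΩ : ∀ x ∈ Ω, x.1.1 ∈ A ∧ x.1.2 ∈ B ∧ x.2.1 ∈ A ∧ x.2.2 ∈ B ∧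
      ‖x.1.1 - x.1.2‖ = ‖x.2.1 - x.2.2‖ := by
    intro x hx
    rw [hΩ] at hx
    simp only [mem_filter, mem_product] at hx
    exact ⟨hx.1.1.1, hx.1.1.2, hx.1.2.1, hx.1.2.2, hx.2⟩
  have c1 := cs (A ×ˢ B) (Ds P) (fun x => ‖x.1 - x.2‖)
    (fun x hx => mem_Ds (hA (mem_product.1 hx).1) (hB (mem_product.1 hx).2))
  rw [← hΩ, card_product] at c1
  obtain ⟨f, hf⟩ : ∃ f : (ℂ × ℂ) × ℂ × ℂ → (ℂ × ℂ) × ℂ, ∀ x, f x =
    ((x.1.1, x.2.1), (x.1.1 - x.1.2) / (x.2.1 - x.2.2)) := ⟨_, fun _ => rfl⟩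
  obtain ⟨g, hg⟩ : ∃ g : (ℂ × ℂ) × ℂ → ℂ × ℂ, ∀ i, g i = (i.2, i.1.1 - i.2 * i.1.2) :=
    ⟨_, fun _ => rfl⟩
  have hact : ∀ x ∈ Ω, act (g (f x)) x.2.2 = x.1.2 := by
    intro x hx
    obtain ⟨-, -, k3, k4, -⟩ := mΩ x hx
    have := ne _ k3 _ k4
    rw [hg, hf]
    simp only [act]
    field_simp
    ring
  have c2 : (#Ω : ℝ) ≤ ∑ i ∈ Ω.image f, (kk P (g i) : ℝ) := by
    rw [card_eq_sum_card_image f Ω]
    push_cast
    refine sum_le_sum fun i _ => Nat.cast_le.2 (card_le_card_of_injOn (fun x => x.2.2)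
      (fun x hx => ?_) fun x hx y hy e => ?_)
    · obtain ⟨k1, k2⟩ := mem_filter.1 (mem_coe.1 hx)
      refine mem_coe.2 (mem_filter.2 ⟨hB (mΩ x k1).2.2.2.1, ?_⟩)
      rw [← k2, hact x k1]
      exact hB (mΩ x k1).2.1
    · obtain ⟨k1, k2⟩ := mem_filter.1 (mem_coe.1 hx)
      obtain ⟨k3, k4⟩ := mem_filter.1 (mem_coe.1 hy)
      have k5 := k2.trans k4.symm
      have k6 : x.1.2 = y.1.2 := by
        rw [← hact x k1, ← hact y k3, k5]
        exact congrArg _ e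
      rw [hf, hf] at k5
      simp only [Prod.mk.injEq] at k5
      exact Prod.ext (Prod.ext k5.1.1 k6) (Prod.ext k5.1.2 e)
  have c3 : #(Ω.image f) ≤ t * #(P ×ˢ P) := by
    refine card_le_mul_card_image_of_maps_to (f := Prod.fst) (fun i hi => ?_) t fun p _ => ?_
    · obtain ⟨x, hx, rfl⟩ := mem_image.1 hi
      rw [hf]
      exact mem_product.2 ⟨hA (mΩ x hx).1, hA (mΩ x hx).2.2.1⟩
    · rcases {i ∈ Ω.image f | i.1 = p}.eq_empty_or_nonempty with k | ⟨j, hj⟩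
      · rw [k]
        simp
      obtain ⟨k1, k2⟩ := mem_filter.1 hj
      obtain ⟨y, hy, rfl⟩ := mem_image.1 k1
      obtain ⟨y1, y2, y3, y4, y5⟩ := mΩ y hy
      refine (card_le_card_of_injOn (fun i => i.2 / (f y).2) (fun i hi => ?_)
        fun i hi i' hi' e => ?_).trans hZ
      · obtain ⟨k3, k4⟩ := mem_filter.1 (mem_coe.1 hi)
        obtain ⟨x, hx, rfl⟩ := mem_image.1 k3
        obtain ⟨x1, x2, x3, x4, x5⟩ := mΩ x hx
        have k5 := k4.trans k2.symm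
        rw [hf, hf] at k5
        simp only [Prod.mk.injEq] at k5
        rw [← k5.1, ← k5.2] at y5
        have := hθ _ x1 _ x3 _ x2 _ x4 _ y2 _ y4 x5 y5
        simp only [hf, mem_coe]
        rwa [← k5.1, ← k5.2]
      · have k3 : (f y).2 ≠ 0 := by
          rw [hf]
          exact div_ne_zero (ne _ y1 _ y2) (ne _ y3 _ y4)
        exact Prod.ext ((mem_filter.1 (mem_coe.1 hi)).2.trans
          (mem_filter.1 (mem_coe.1 hi')).2.symm) ((div_left_inj' k3).1 e)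
  have h1' : (#P : ℝ) ≤ L * #A := by exact_mod_cast h1
  have h2' : (#P : ℝ) ≤ L * #B := by exact_mod_cast h2
  have hD' : (#(Ds P) : ℝ) ≤ C * #P := by exact_mod_cast hD
  have c4 : (#P : ℝ) ^ 3 ≤ L ^ 4 * C * #Ω := by
    have k1 := pow_le_pow_left₀ (by positivity) (mul_le_mul h1' h2' hn.le (by positivity)) 2
    push_cast at c1
    have k2 := c1.trans (mul_le_mul_of_nonneg_right hD' (Nat.cast_nonneg _))
    have k3 := mul_le_mul_of_nonneg_left k2 (show (0 : ℝ) ≤ (L : ℝ) ^ 4 by positivity)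
    refine le_of_mul_le_mul_right ?_ hn
    nlinarith
  have c5 := pop_bound hK hK1 (Ω.image f) g (F := #P) (X := t * (#P : ℝ) ^ 2) (η := η)
    (fun i hi => by
      obtain ⟨x, hx, rfl⟩ := mem_image.1 hi
      obtain ⟨-, -, x3, x4, x5⟩ := mΩ x hx
      rw [hg, hf]
      simp only [norm_div, x5]
      exact div_self (norm_ne_zero_iff.2 (ne _ x3 _ x4)))
    hn.le (fun h => Nat.cast_le.2 (card_le_card_of_injOn (fun i => i.1.2) (fun i hi => by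
      obtain ⟨x, hx, rfl⟩ := mem_image.1 (mem_filter.1 (mem_coe.1 hi)).1
      rw [hf]
      exact mem_coe.2 (hA (mΩ x hx).2.2.1)) fun i hi j hj e => by
        have k := (mem_filter.1 (mem_coe.1 hi)).2.trans (mem_filter.1 (mem_coe.1 hj)).2.symm
        rw [hg, hg] at k
        simp only [Prod.mk.injEq] at k e
        refine Prod.ext (Prod.ext ?_ e) k.1
        linear_combination k.2 + i.1.2 * k.1 + j.2 * e))
    (by
      rw [card_product] at c3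
      rw [sq]
      exact_mod_cast c3) hη h3
    (by
      refine le_trans ?_ c2
      have k1 := mul_le_mul_of_nonneg_left c4 (show (0 : ℝ) ≤ 2 * η * t by positivity)
      have k2 := mul_le_mul_of_nonneg_right hη1 (show (0 : ℝ) ≤ #Ω by positivity)
      nlinarith)
  refine le_of_mul_le_mul_right ?_ hn
  nlinarith

/-- a multiplicative size on the complex numbers -/
structure Sz where
  Λ : Type
  [inst : LinearOrderedCommGroupWithZero Λ]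
  N : ℂ →*₀ Λ
  β : Λ
  tri : Tri N β
  ball : Ball N β
  ball' : Ball (fun z => N (starRingEnd ℂ z)) β

attribute [instance] Sz.inst

/-- the conjugate size -/
def Sz.N' (S : Sz) : ℂ → S.Λ := fun z => S.N (starRingEnd ℂ z)

theorem Sz.tri' (S : Sz) : Tri S.N' S.β where
  one_le := S.tri.one_le
  neg z := by simp only [Sz.N', map_neg, S.tri.neg]
  tri z w := by
    simp only [Sz.N', map_add]
    exact S.tri.tri _ _
  zero z := by simp [Sz.N']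

theorem Sz.prod (S : Sz) {z w : ℂ} (h : ‖z‖ = ‖w‖) : S.N z * S.N' z = S.N w * S.N' w := by
  simp only [Sz.N', ← map_mul, Complex.mul_conj, Complex.normSq_eq_norm_sq, h]

theorem Sz.two_ball (S : Sz) {A B : Finset ℂ} (hA : 160000 ≤ #A) (hB : 160000 ≤ #B) :
    ∃ X : Finset ℂ × Finset ℂ, X.1 ⊆ A ∧ X.2 ⊆ B ∧ #A ≤ 160000 * #X.1 ∧ #B ≤ 160000 * #X.2 ∧
      ((Row S.N S.β 2 X.1 X.2 ∨ Row S.N' S.β 2 X.1 X.2) ∨
        (Row S.N S.β 2 X.2 X.1 ∧ Row S.N' S.β 2 X.2 X.1)) := by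
  obtain ⟨A1, a1, B1, b1, h1, h2, h3⟩ := S.ball A B (by omega) (by omega)
  obtain ⟨A2, a2, B2, b2, h4, h5, h6⟩ := S.ball' A1 B1 (by omega) (by omega)
  refine ⟨(A2, B2), a2.trans a1, b2.trans b1, by dsimp only; omega, by dsimp only; omega, ?_⟩
  rcases h3 with h3 | h3
  · exact Or.inl (Or.inl (h3.mono a2 b2))
  rcases h6 with h6 | h6
  · exact Or.inl (Or.inr h6)
  · exact Or.inr ⟨h3.mono b2 a2, h6⟩

theorem Sz.prod_window (S : Sz) {A B : Finset ℂ} (h1 : Row S.N S.β 2 B A)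
    (h2 : Row S.N' S.β 2 B A) {s : ℝ} (hs : ∀ b ∈ B, ∃ a ∈ A, ‖b - a‖ = s) {c : ℂ} (hc : c ∈ A) :
    ∀ b ∈ B, ∀ b' ∈ B, S.N (b - c) * S.N' (b - c) ≤ S.β ^ 8 * (S.N (b' - c) * S.N' (b' - c)) := by
  intro b hb b' hb'
  obtain ⟨a, ha, e⟩ := hs b hb
  obtain ⟨a', ha', e'⟩ := hs b' hb'
  have k1 := mul_le_mul' (h1 b hb c hc a ha) (h2 b hb c hc a ha)
  have k2 := mul_le_mul' (h1 b' hb' a' ha' c hc) (h2 b' hb' a' ha' c hc)
  rw [mul_mul_mul_comm] at k1 k2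
  rw [S.prod (e.trans e'.symm)] at k1
  refine (k1.trans (mul_le_mul_right k2 _)).trans_eq ?_
  rw [← mul_assoc, ← pow_add, ← pow_add]

theorem Sz.ratio (S : Sz) {A B : Finset ℂ} (hd : Disjoint A B) {M : ℕ}
    (h : Row S.N S.β M A B ∨ Row S.N' S.β M A B) {a c b d b' d' : ℂ} (ha : a ∈ A) (hc : c ∈ A)
    (hb : b ∈ B) (hd1 : d ∈ B) (hb' : b' ∈ B) (hd' : d' ∈ B) (e : ‖a - b‖ = ‖c - d‖)
    (e' : ‖a - b'‖ = ‖c - d'‖) :
    S.N ((a - b) / (c - d) / ((a - b') / (c - d'))) ≤ S.β ^ (M + M) := by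
  have ne : ∀ a ∈ A, ∀ b ∈ B, a - b ≠ 0 := fun a ha b hb e =>
    disjoint_left.1 hd ha (sub_eq_zero.1 e ▸ hb)
  have p : ∀ a ∈ A, ∀ b ∈ B, 0 < S.N (a - b) := fun a ha b hb =>
    zero_lt_iff.2 fun e => ne a ha b hb ((S.tri.zero _).1 e)
  have p' : ∀ a ∈ A, ∀ b ∈ B, 0 < S.N' (a - b) := fun a ha b hb =>
    zero_lt_iff.2 fun e => ne a ha b hb ((S.tri'.zero _).1 e)
  rw [div_div_div_eq, map_div₀, map_mul, map_mul,
    div_le_iff₀ (mul_pos (p c hc d hd1) (p a ha b' hb')), pow_add]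
  rcases h with h | h
  · refine (mul_le_mul' (h a ha b hb b' hb') (h c hc d' hd' d hd1)).trans_eq ?_
    simp only [mul_assoc, mul_left_comm, mul_comm]
  · have k := mul_le_mul' (h a ha b' hb' b hb) (h c hc d hd1 d' hd')
    have k1 := S.prod e
    have k2 := S.prod e'
    refine le_of_mul_le_mul_right ?_ (mul_pos (p' a ha b hb) (p' c hc d' hd'))
    calc S.N (a - b) * S.N (c - d') * (S.N' (a - b) * S.N' (c - d'))
        = S.N (c - d) * S.N (a - b') * (S.N' (a - b') * S.N' (c - d)) := by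
          rw [mul_mul_mul_comm, k1, ← k2]
          simp only [mul_assoc, mul_left_comm, mul_comm]
      _ ≤ S.N (c - d) * S.N (a - b') * (S.β ^ M * S.N' (a - b) * (S.β ^ M * S.N' (c - d'))) :=
          mul_le_mul_right k _
      _ = _ := by simp only [mul_assoc, mul_left_comm, mul_comm]

section
variable (U : Ultrafilter ℕ) (n : ℕ → ℕ)

/-- a sequence of sets of positive density along the ultrafilter -/
def Dns (A : ℕ → Finset ℂ) : Prop := ∃ L : ℕ, ∀ᶠ k in U, n k ≤ L * #(A k)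

def Sub (A B : ℕ → Finset ℂ) : Prop := ∀ᶠ k in U, A k ⊆ B k

def RR (S : ℕ → Sz) (A B : ℕ → Finset ℂ) : Prop :=
  ∃ M : ℕ, ∀ᶠ k in U, Row (S k).N (S k).β M (A k) (B k) ∨ Row (S k).N' (S k).β M (A k) (B k)

def Good (S : ℕ → Sz) (Q : ℕ → Finset ℂ) : Prop :=
  ∀ A B, Sub U A Q → Sub U B Q → Dns U n A → Dns U n B → (∀ᶠ k in U, Disjoint (A k) (B k)) →
    ∃ A' B', Sub U A' A ∧ Sub U B' B ∧ Dns U n A' ∧ Dns U n B' ∧ RR U S A' B'

variable {U n}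

theorem Sub.refl (A : ℕ → Finset ℂ) : Sub U A A := Eventually.of_forall fun _ => Subset.rfl

theorem Sub.trans {A B C : ℕ → Finset ℂ} (h : Sub U A B) (h' : Sub U B C) : Sub U A C := by
  filter_upwards [h, h'] with k h1 h2 using h1.trans h2

theorem RR.mono {S : ℕ → Sz} {A B A' B' : ℕ → Finset ℂ} (h : RR U S A B) (hA : Sub U A' A)
    (hB : Sub U B' B) : RR U S A' B' := by
  obtain ⟨M, h⟩ := h
  refine ⟨M, ?_⟩
  filter_upwards [h, hA, hB] with k h1 h2 h3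
  exact h1.imp (fun k => k.mono h2 h3) fun k => k.mono h2 h3

theorem Good.mono {S : ℕ → Sz} {Q Q' : ℕ → Finset ℂ} (h : Good U n S Q) (hQ : Sub U Q' Q) :
    Good U n S Q' := fun A B hA hB => h A B (hA.trans hQ) (hB.trans hQ)

theorem Dns.big (hn : ∀ m, ∀ᶠ k in U, m ≤ n k) {A : ℕ → Finset ℂ} (h : Dns U n A) (m : ℕ) :
    ∀ᶠ k in U, m ≤ #(A k) := by
  obtain ⟨L, h⟩ := h
  filter_upwards [h, hn (L * m + 1)] with k h1 h2
  exact (Nat.lt_of_mul_lt_mul_left (a := L) (by omega)).le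

theorem Dns.of_le {A A' : ℕ → Finset ℂ} (h : Dns U n A) (c : ℕ)
    (h' : ∀ᶠ k in U, #(A k) ≤ c * #(A' k)) : Dns U n A' := by
  obtain ⟨L, h⟩ := h
  refine ⟨L * c, ?_⟩
  filter_upwards [h, h'] with k h1 h2
  rw [mul_assoc]
  exact h1.trans (Nat.mul_le_mul_left _ h2)

theorem exists_good (hn : ∀ m, ∀ᶠ k in U, m ≤ n k) {P : ℕ → Finset ℂ} {K C : ℕ}
    (hK : ∀ k, Circ (P k) K) (hD : ∀ k, #(Ds (P k)) ≤ C * n k) (S : ℕ → Sz) {Q : ℕ → Finset ℂ}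
    (hQ : Sub U Q P) (dQ : Dns U n Q) : ∃ Q', Sub U Q' Q ∧ Dns U n Q' ∧ Good U n S Q' := by
  by_cases hG : Good U n S Q
  · exact ⟨Q, Sub.refl Q, dQ, hG⟩
  simp only [Good, not_forall, not_exists, not_and] at hG
  obtain ⟨A, B, hA, hB, dA, dB, hd, hno⟩ := hG
  obtain ⟨X, hX⟩ := (((dA.big hn 160000).and (dB.big hn 160000)).mono
    fun k h => (S k).two_ball h.1 h.2).choice
  have sA : Sub U (fun k => (X k).1) A := hX.mono fun k h => h.1
  have sB : Sub U (fun k => (X k).2) B := hX.mono fun k h => h.2.1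
  have dA2 : Dns U n fun k => (X k).1 := dA.of_le _ (hX.mono fun k h => h.2.2.1)
  have dB2 : Dns U n fun k => (X k).2 := dB.of_le _ (hX.mono fun k h => h.2.2.2.1)
  have col : ∀ᶠ k in U, Row (S k).N (S k).β 2 (X k).2 (X k).1 ∧
      Row (S k).N' (S k).β 2 (X k).2 (X k).1 := by
    have := Ultrafilter.eventually_not.2 fun h => hno _ _ sA sB dA2 dB2 ⟨2, h⟩
    filter_upwards [hX, this] with k h1 h2 using h1.2.2.2.2.resolve_left h2
  have step : ∀ᶠ k in U, ∃ Y : Finset ℂ × ℂ, Y.1 ⊆ (X k).2 ∧ Y.2 ∈ (X k).1 ∧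
      #(X k).1 * #(X k).2 ≤ K * #Y.1 * #(Ds (P k)) ∧ ∀ b ∈ Y.1, ∀ b' ∈ Y.1,
        (S k).N (b - Y.2) * (S k).N' (b - Y.2) ≤
          (S k).β ^ 8 * ((S k).N (b' - Y.2) * (S k).N' (b' - Y.2)) := by
    filter_upwards [col, (sA.trans hA).trans hQ, (sB.trans hB).trans hQ, dA2.big hn 1]
      with k h1 h2 h3 h4
    obtain ⟨c, hc⟩ := card_pos.1 h4
    obtain ⟨B', k1, s, k2, k3⟩ := common_dist (hK k) h2 h3 ⟨c, h2 hc⟩
    exact ⟨(B', c), k1, hc, k2, (S k).prod_window (h1.1.mono k1 Subset.rfl)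
      (h1.2.mono k1 Subset.rfl) k3 hc⟩
  obtain ⟨Y, hY⟩ := step.choice
  have sY : Sub U (fun k => (Y k).1) fun k => (X k).2 := hY.mono fun k h => h.1
  have dY : Dns U n fun k => (Y k).1 := by
    obtain ⟨L1, h1⟩ := dA2
    obtain ⟨L2, h2⟩ := dB2
    refine ⟨L1 * L2 * K * C, ?_⟩
    filter_upwards [h1, h2, hY, hn 1] with k h1 h2 h3 h4
    have k1 := Nat.mul_le_mul h1 h2
    have k2 := Nat.mul_le_mul_left (L1 * L2) (h3.2.2.1.trans (Nat.mul_le_mul_left _ (hD k)))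
    refine Nat.le_of_mul_le_mul_right ?_ h4
    calc n k * n k ≤ L1 * L2 * (#(X k).1 * #(X k).2) := k1.trans_eq (by ring)
      _ ≤ _ := k2.trans_eq (by ring)
  have spread : ∀ L, 0 < L → ∀ᶠ k in U, ∀ T ⊆ (Y k).1, (∀ b ∈ T, ∀ b' ∈ T,
      (S k).N (b - (Y k).2) ≤ (S k).β * (S k).N (b' - (Y k).2)) → #T ≤ n k / L := by
    intro L hL
    by_contra hc
    have h1 := Ultrafilter.eventually_not.2 hc
    simp only [not_forall, not_le] at h1
    obtain ⟨T, hT⟩ := h1.choice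
    have sT : Sub U T fun k => (Y k).1 := hT.mono fun k h => h.1
    refine hno _ T sA ((sT.trans sY).trans sB) dA2 ⟨L, hT.mono fun k h => ?_⟩ ⟨5, ?_⟩
    · obtain ⟨-, -, h⟩ := h
      rw [mul_comm]
      exact ((Nat.div_lt_iff_lt_mul hL).1 h).le
    · filter_upwards [hT, hY, col] with k h1 h2 h3
      obtain ⟨h4, h5, -⟩ := h1
      refine Or.inl fun a ha b hb b' hb' => ?_
      rw [(S k).tri.swap a b, (S k).tri.swap a b']
      refine ((h3.1 b (h2.1 (h4 hb)) a ha _ h2.2.1).trans (mul_le_mul_right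
        ((h5 b hb b' hb').trans (mul_le_mul_right
          (h3.1 b' (h2.1 (h4 hb')) _ h2.2.1 a ha) _)) _)).trans_eq ?_
      rw [← mul_assoc, ← mul_assoc, ← pow_succ, ← pow_add]
  refine ⟨fun k => (Y k).1, ((sY.trans sB).trans hB), dY, fun A' B' hA' hB' dA' dB' _ => ?_⟩
  obtain ⟨L, hL⟩ := id dB'
  have fin : ∀ᶠ k in U, ∃ W : Finset ℂ × Finset ℂ, W.1 ⊆ A' k ∧ W.2 ⊆ B' k ∧
      #(A' k) ≤ 2 * #W.1 ∧ #(B' k) ≤ 4 * #W.2 ∧
      (Row (S k).N (S k).β 2 W.1 W.2 ∨ Row (S k).N' (S k).β 2 W.1 W.2) := by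
    filter_upwards [spread (38 * (L + 1)) (by omega), hL, hY, hA', hB', dA'.big hn 1, hd, sA, sB]
      with k h1 h2 h3 h4 h5 h6 h7 h8 h9
    obtain ⟨A2, k1, B2, k2, k3, k4, k5⟩ := row_of_spread (S k).tri (S k).tri'
      (fun h => disjoint_left.1 h7 (h8 h3.2.1) (h9 (h3.1 h))) h3.2.2.2 h1 (card_pos.1 h6) h4 h5
    refine ⟨(A2, B2), k1, k2, k3, ?_, k5⟩
    have k6 := Nat.mul_div_le (n k) (38 * (L + 1))
    have k7 : 38 * (n k / (38 * (L + 1))) ≤ #(B' k) := by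
      refine Nat.le_of_mul_le_mul_left ?_ (Nat.succ_pos L)
      calc (L + 1) * (38 * (n k / (38 * (L + 1)))) ≤ n k := le_of_eq_of_le (by ring) k6
        _ ≤ _ := h2.trans (Nat.mul_le_mul_right _ (Nat.le_succ L))
    dsimp only
    omega
  obtain ⟨W, hW⟩ := fin.choice
  exact ⟨fun k => (W k).1, fun k => (W k).2, hW.mono fun k h => h.1, hW.mono fun k h => h.2.1,
    dA'.of_le _ (hW.mono fun k h => h.2.2.1), dB'.of_le _ (hW.mono fun k h => h.2.2.2.1),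
    2, hW.mono fun k h => h.2.2.2.2⟩

theorem exists_rr (hn : ∀ m, ∀ᶠ k in U, m ≤ n k) {P : ℕ → Finset ℂ} {K C : ℕ}
    (hP : ∀ k, #(P k) = n k) (hK : ∀ k, Circ (P k) K) (hD : ∀ k, #(Ds (P k)) ≤ C * n k)
    {ι : Type} [Fintype ι] (S : ι → ℕ → Sz) :
    ∃ A B, Sub U A P ∧ Sub U B P ∧ Dns U n A ∧ Dns U n B ∧ (∀ᶠ k in U, Disjoint (A k) (B k)) ∧
      ∀ i, RR U (S i) A B := by
  classical
  have h1 : ∀ s : Finset ι, ∃ Q, Sub U Q P ∧ Dns U n Q ∧ ∀ i ∈ s, Good U n (S i) Q := by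
    intro s
    induction s using Finset.induction_on with
    | empty => exact ⟨P, Sub.refl P, ⟨1, Eventually.of_forall fun k => by simp [hP]⟩, by simp⟩
    | insert i s _ ih =>
      obtain ⟨Q, h1, h2, h3⟩ := ih
      obtain ⟨Q', h4, h5, h6⟩ := exists_good hn hK hD (S i) h1 h2
      exact ⟨Q', h4.trans h1, h5, forall_mem_insert _ _ _ |>.2 ⟨h6, fun j hj => (h3 j hj).mono h4⟩⟩
  obtain ⟨Q, hQ, dQ, hG⟩ := h1 univ
  choose A0 hA0 hA1 using fun k => exists_subset_card_eq (s := Q k) (Nat.div_le_self #(Q k) 2)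
  have h2 : ∀ s : Finset ι, ∃ A B, Sub U A Q ∧ Sub U B Q ∧ Dns U n A ∧ Dns U n B ∧
      (∀ᶠ k in U, Disjoint (A k) (B k)) ∧ ∀ i ∈ s, RR U (S i) A B := by
    intro s
    induction s using Finset.induction_on with
    | empty =>
      refine ⟨A0, fun k => Q k \ A0 k, Eventually.of_forall hA0,
        Eventually.of_forall fun k => sdiff_subset, dQ.of_le 3 ?_,
        dQ.of_le 2 (Eventually.of_forall fun k => ?_),
        Eventually.of_forall fun k => disjoint_sdiff, by simp⟩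
      · filter_upwards [dQ.big hn 2] with k h
        rw [hA1]
        omega
      · rw [card_sdiff_of_subset (hA0 k), hA1]
        omega
    | insert i s _ ih =>
      obtain ⟨A, B, h1, h2, h3, h4, h5, h6⟩ := ih
      obtain ⟨A', B', k1, k2, k3, k4, k5⟩ := hG i (mem_univ i) A B h1 h2 h3 h4 h5
      refine ⟨A', B', k1.trans h1, k2.trans h2, k3, k4, ?_,
        forall_mem_insert _ _ _ |>.2 ⟨k5, fun j hj => (h6 j hj).mono k1 k2⟩⟩
      filter_upwards [h5, k1, k2] with k a b c using a.mono b c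
  obtain ⟨A, B, h1, h2, h3, h4, h5, h6⟩ := h2 univ
  exact ⟨A, B, h1.trans hQ, h2.trans hQ, h3, h4, h5, fun i => h6 i (mem_univ i)⟩

end

theorem main_abs (ι : Type) [Fintype ι] (K C : ℕ) (t : ℕ → ℕ) :
    ∃ n0 : ℕ, ∀ (P : Finset ℂ) (S : ι → Sz) (Γ : Set ℂ), n0 ≤ #P → ThreeAPFree (P : Set ℂ) →
      Circ P K → (∀ x ∈ Γ, ∀ y ∈ Γ, x / y ∈ Γ) →
      (∀ a ∈ P, ∀ b ∈ P, ∀ c ∈ P, ∀ d ∈ P, a ≠ b → ‖a - b‖ = ‖c - d‖ → (a - b) / (c - d) ∈ Γ) →
      (∀ M, ∃ Z : Finset ℂ, #Z ≤ t M ∧ ∀ η ∈ Γ, ‖η‖ = 1 →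
        (∀ i, (S i).N η ≤ (S i).β ^ M ∧ (S i).N η⁻¹ ≤ (S i).β ^ M) → η ∈ Z) →
      C * #P < #(Ds P) := by
  by_contra hc
  simp only [not_exists, not_forall, not_lt] at hc
  choose P S Γ h1 h2 h3 h4 h5 h6 h7 using hc
  have hn : ∀ m, ∀ᶠ k in (hyperfilter ℕ : Ultrafilter ℕ), m ≤ #(P k) := fun m =>
    ((eventually_ge_atTop m).filter_mono Nat.hyperfilter_le_atTop).mono fun k h => h.trans (h1 k)
  obtain ⟨A, B, sA, sB, ⟨L1, dA⟩, ⟨L2, dB⟩, hd, hR⟩ :=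
    exists_rr hn (fun _ => rfl) h3 h7 (fun i k => S k i)
  choose M hM using hR
  obtain ⟨M0, hM0⟩ : ∃ M0, ∀ i, M i ≤ M0 := ⟨univ.sup M, fun i => le_sup (mem_univ i)⟩
  obtain ⟨η, hη0, hη⟩ : ∃ η : ℝ, 0 < η ∧
      2 * η * (t (M0 + M0) + 1 : ℕ) * ((L1 + L2 : ℕ) ^ 4 * C) ≤ 1 := by
    refine ⟨1 / (2 * (t (M0 + M0) + 1 : ℕ) * ((L1 + L2 : ℕ) ^ 4 * C) + 1), by positivity, ?_⟩
    rw [mul_one_div, div_mul_eq_mul_div, div_mul_eq_mul_div, div_le_one (by positivity)]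
    linarith
  obtain ⟨n0, hn0⟩ := energy_small (δ := η ^ 14 * (t (M0 + M0) + 1 : ℕ) / (24 * (K + 1 : ℕ)))
    (by positivity)
  obtain ⟨n1, hn1⟩ := exists_nat_ge (2 / η)
  obtain ⟨k, k1, k2, k3, k4, k5, k6, k7, k8⟩ := (sA.and (sB.and (dA.and (dB.and (hd.and
    ((eventually_all.2 hM).and ((hn n0).and (hn n1)))))))).exists
  obtain ⟨Z, z1, z2⟩ := h6 k (M0 + M0)
  have ne : ∀ a ∈ A k, ∀ b ∈ B k, a ≠ b := fun a ha b hb e => disjoint_left.1 k5 ha (e ▸ hb)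
  have row : ∀ i, Row (S k i).N (S k i).β M0 (A k) (B k) ∨
      Row (S k i).N' (S k i).β M0 (A k) (B k) := fun i =>
    (k6 i).imp (fun h => h.up (S k i).tri.one_le (hM0 i)) fun h => h.up (S k i).tri.one_le (hM0 i)
  have key := energy_big (K := K + 1) (L := L1 + L2) (t := t (M0 + M0) + 1) (Z := Z)
    (fun c r => (h3 k c r).trans (Nat.le_succ K)) (by omega) k1 k2 k5
    (k3.trans (Nat.mul_le_mul_right _ (by omega))) (k4.trans (Nat.mul_le_mul_right _ (by omega)))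
    (h7 k) (by omega) (fun a ha c hc b hb d hd b' hb' d' hd' e e' => by
      refine z2 _ (h4 k _ (h5 k a (k1 ha) b (k2 hb) c (k1 hc) d (k2 hd) (ne a ha b hb) e) _
        (h5 k a (k1 ha) b' (k2 hb') c (k1 hc) d' (k2 hd') (ne a ha b' hb') e')) ?_ fun i =>
        ⟨(S k i).ratio k5 (row i) ha hc hb hd hb' hd' e e', ?_⟩
      · simp only [norm_div, e, e']
        rw [div_self (norm_ne_zero_iff.2 (sub_ne_zero.2 (ne c hc d hd))),
          div_self (norm_ne_zero_iff.2 (sub_ne_zero.2 (ne c hc d' hd'))), div_one]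
      · rw [inv_div]
        exact (S k i).ratio k5 (row i) ha hc hb' hd' hb hd e' e) hη0 hη (by
      rw [div_le_iff₀ hη0] at hn1
      have : (n1 : ℝ) ≤ #(P k) := by exact_mod_cast k8
      nlinarith)
  have := hn0 (P k) (h2 k) k7
  rw [div_mul_eq_mul_div, lt_div_iff₀ (by positivity)] at this
  linarith

end Pool.Agent.MP_e70dc0_co.H36
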