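import Mathlib

/-! Sizes (valuations and conjugate absolute values) on finite sets of points. -/

set_option autoImplicit false

namespace Pool.Agent.MP_e70dc0_co.H36

open Finset

variable {Λ : Type} [LinearOrderedCommGroupWithZero Λ]

/-- on `A × B` the size of `a - b` depends, up to the factor `β ^ M`, only on `a` -/
def Row (N : ℂ → Λ) (β : Λ) (M : ℕ) (A B : Finset ℂ) : Prop :=
  ∀ a ∈ A, ∀ b ∈ B, ∀ b' ∈ B, N (a - b) ≤ β ^ M * N (a - b')

theorem Row.mono {N : ℂ → Λ} {β : Λ} {M : ℕ} {A B A' B' : Finset ℂ} (h : Row N β M A B)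
    (hA : A' ⊆ A) (hB : B' ⊆ B) : Row N β M A' B' :=
  fun a ha b hb b' hb' => h a (hA ha) b (hB hb) b' (hB hb')

theorem Row.up {N : ℂ → Λ} {β : Λ} (hβ : 1 ≤ β) {M M' : ℕ} {A B : Finset ℂ} (h : Row N β M A B)
    (hM : M ≤ M') : Row N β M' A B :=
  fun a ha b hb b' hb' => (h a ha b hb b' hb').trans
    (mul_le_mul_left (pow_le_pow_right₀ hβ hM) _)

structure Tri (N : ℂ → Λ) (β : Λ) : Prop where
  one_le : 1 ≤ β
  neg : ∀ z, N (-z) = N z
  tri : ∀ z w, N (z + w) ≤ β * max (N z) (N w)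
  zero : ∀ z, N z = 0 ↔ z = 0

theorem Tri.le_mul {N : ℂ → Λ} {β : Λ} (h : Tri N β) (x : Λ) : x ≤ β * x := by
  simpa using mul_le_mul_left h.one_le x

theorem Tri.swap {N : ℂ → Λ} {β : Λ} (h : Tri N β) (x y : ℂ) : N (x - y) = N (y - x) := by
  rw [← h.neg, neg_sub]

theorem Tri.near_far {N : ℂ → Λ} {β : Λ} (h : Tri N β) {x y : ℂ} (hxy : β * N x < N y) :
    N (y - x) ≤ β * N y ∧ N y ≤ β * N (y - x) := by
  constructor
  · have := h.tri y (-x)
    rwa [h.neg, max_eq_left ((h.le_mul _).trans hxy.le), ← sub_eq_add_neg] at this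
  · have := h.tri x (y - x)
    rw [add_sub_cancel] at this
    rcases le_total (N x) (N (y - x)) with k | k
    · rwa [max_eq_right k] at this
    · rw [max_eq_left k] at this
      exact absurd hxy (not_lt.2 this)

theorem Tri.row_of_far {N : ℂ → Λ} {β : Λ} (h : Tri N β) {A B : Finset ℂ} (c : ℂ)
    (hf : ∀ a ∈ A, ∀ b ∈ B, β * N (b - c) < N (a - c)) : Row N β 2 A B := by
  intro a ha b hb b' hb'
  have h1 := (h.near_far (hf a ha b hb)).1
  have h2 := (h.near_far (hf a ha b' hb')).2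
  rw [sub_sub_sub_cancel_right] at h1 h2
  rw [sq, mul_assoc]
  exact h1.trans (mul_le_mul_right h2 _)

theorem median {κ : Type*} [LinearOrder κ] {A : Finset ℂ} (hA : A.Nonempty) (f : ℂ → κ) :
    ∃ a ∈ A, #A ≤ 2 * #{x ∈ A | f x ≤ f a} ∧ #A ≤ 2 * #{x ∈ A | f a ≤ f x} := by
  obtain ⟨a1, ha1, h1⟩ := exists_max_image A f hA
  have hne : {a ∈ A | #A ≤ 2 * #{x ∈ A | f x ≤ f a}}.Nonempty :=
    ⟨a1, mem_filter.2 ⟨ha1, by rw [filter_true_of_mem h1]; omega⟩⟩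
  obtain ⟨a, ha, hmin⟩ := exists_min_image _ f hne
  refine ⟨a, (mem_filter.1 ha).1, (mem_filter.1 ha).2, ?_⟩
  have h2 := card_filter_add_card_filter_not (s := A) (fun x => f a ≤ f x)
  rcases {x ∈ A | ¬ f a ≤ f x}.eq_empty_or_nonempty with h3 | h3
  · rw [h3, card_empty] at h2
    omega
  · obtain ⟨a', ha', h4⟩ := exists_max_image _ f h3
    have h5 : ¬ #A ≤ 2 * #{x ∈ A | f x ≤ f a'} := fun k =>
      (mem_filter.1 ha').2 (hmin a' (mem_filter.2 ⟨(mem_filter.1 ha').1, k⟩))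
    have h6 : #{x ∈ A | ¬ f a ≤ f x} ≤ #{x ∈ A | f x ≤ f a'} :=
      card_le_card fun x hx => mem_filter.2 ⟨(mem_filter.1 hx).1, h4 x hx⟩
    omega

/-- any two large sets have large parts on which the size depends on one point only -/
def Ball (N : ℂ → Λ) (β : Λ) : Prop :=
  ∀ A B : Finset ℂ, 400 ≤ #A → 400 ≤ #B → ∃ A' ⊆ A, ∃ B' ⊆ B, #A ≤ 400 * #A' ∧ #B ≤ 400 * #B' ∧
    (Row N β 2 A' B' ∨ Row N β 2 B' A')

def Hyp (N : ℂ → Λ) (β : Λ) : Prop :=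
  ∀ (A B : Finset ℂ) (x : ℂ) (r : Λ), r ≠ 0 → (∀ y ∈ A, 200 * #{z ∈ A | N (z - y) < r} ≤ #A) →
    #A < 2 * #{a ∈ A | N (a - x) ≤ β * r} → #B < 200 * #{b ∈ B | N (b - x) ≤ r} →
    ∃ A' ⊆ A, ∃ B' ⊆ B, #A ≤ 400 * #A' ∧ #B ≤ 400 * #B' ∧ Row N β 2 A' B'

theorem half {N : ℂ → Λ} {β : Λ} (h : Tri N β) (H : Hyp N β) {A B : Finset ℂ} {x : ℂ} {r : Λ}
    (hr : r ≠ 0) (h1 : ∀ y ∈ A, 200 * #{z ∈ A | N (z - y) < r} ≤ #A)
    (h2 : #B < 200 * #{b ∈ B | N (b - x) ≤ r}) :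
    ∃ A' ⊆ A, ∃ B' ⊆ B, #A ≤ 400 * #A' ∧ #B ≤ 400 * #B' ∧ Row N β 2 A' B' := by
  by_cases h3 : #A < 2 * #{a ∈ A | N (a - x) ≤ β * r}
  · exact H A B x r hr h1 h3 h2
  have h4 := card_filter_add_card_filter_not (s := A) (fun a => N (a - x) ≤ β * r)
  refine ⟨{a ∈ A | ¬ N (a - x) ≤ β * r}, filter_subset _ _, {b ∈ B | N (b - x) ≤ r},
    filter_subset _ _, by omega, by omega, h.row_of_far x fun a ha b hb => ?_⟩
  exact (mul_le_mul_right (mem_filter.1 hb).2 _).trans_lt (not_le.1 (mem_filter.1 ha).2)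

theorem ball_of_hyp {N : ℂ → Λ} {β : Λ} (h : Tri N β) (H : Hyp N β) : Ball N β := by
  classical
  intro A B hA hB
  obtain ⟨Big, hBig⟩ : ∃ Big : ℂ × ℂ → Prop, ∀ p, Big p ↔
      (#A < 200 * #{a ∈ A | N (a - p.1) ≤ N (p.2 - p.1)} ∨
        #B < 200 * #{b ∈ B | N (b - p.1) ≤ N (p.2 - p.1)}) := ⟨_, fun _ => Iff.rfl⟩
  have hAne : A.Nonempty := card_pos.1 (by omega)
  obtain ⟨x0, hx0⟩ := hAne
  obtain ⟨y0, hy0, hmax⟩ := exists_max_image A (fun a => N (a - x0)) ⟨x0, hx0⟩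
  have hne : {p ∈ (A ∪ B) ×ˢ (A ∪ B) | Big p}.Nonempty :=
    ⟨(x0, y0), mem_filter.2 ⟨mem_product.2 ⟨mem_union_left _ hx0, mem_union_left _ hy0⟩,
      (hBig _).2 (Or.inl (by rw [filter_true_of_mem hmax]; omega))⟩⟩
  obtain ⟨p, hp, hmin⟩ := exists_min_image _ (fun p : ℂ × ℂ => N (p.2 - p.1)) hne
  have hb := (hBig p).1 (mem_filter.1 hp).2
  have one : ∀ S : Finset ℂ, #{a ∈ S | N (a - p.1) ≤ 0} ≤ 1 := fun S =>
    card_le_one.2 fun a ha b hb => by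
      rw [sub_eq_zero.1 ((h.zero _).1 (le_zero_iff.1 (mem_filter.1 ha).2)),
        sub_eq_zero.1 ((h.zero _).1 (le_zero_iff.1 (mem_filter.1 hb).2))]
  have hr : N (p.2 - p.1) ≠ 0 := by
    intro h0
    rw [h0] at hb
    have := one A
    have := one B
    omega
  have small : ∀ S : Finset ℂ, S = A ∨ S = B →
      ∀ y ∈ S, 200 * #{z ∈ S | N (z - y) < N (p.2 - p.1)} ≤ #S := by
    intro S hS y hy
    have hsub : S ⊆ A ∪ B := by
      rcases hS with rfl | rfl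
      · exact subset_union_left
      · exact subset_union_right
    rcases {z ∈ S | N (z - y) < N (p.2 - p.1)}.eq_empty_or_nonempty with h3 | h3
    · rw [h3]
      simp
    obtain ⟨z, hz, h4⟩ := exists_max_image _ (fun z => N (z - y)) h3
    have h5 : ¬ Big (y, z) := fun k => not_le.2 (mem_filter.1 hz).2
      (hmin (y, z) (mem_filter.2 ⟨mem_product.2 ⟨hsub hy, hsub (mem_filter.1 hz).1⟩, k⟩))
    have h6 : #{w ∈ S | N (w - y) < N (p.2 - p.1)} ≤ #{w ∈ S | N (w - y) ≤ N (z - y)} :=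
      card_le_card fun w hw => mem_filter.2 ⟨(mem_filter.1 hw).1, h4 w hw⟩
    rw [hBig, not_or] at h5
    dsimp only at h5
    rcases hS with rfl | rfl <;> omega
  rcases hb with hb | hb
  · obtain ⟨B', h1, A', h2, h3, h4, h5⟩ := half h H hr (small B (Or.inr rfl)) hb
    exact ⟨A', h2, B', h1, h4, h3, Or.inr h5⟩
  · obtain ⟨A', h1, B', h2, h3, h4, h5⟩ := half h H hr (small A (Or.inl rfl)) hb
    exact ⟨A', h1, B', h2, h3, h4, Or.inl h5⟩

theorem hyp_one {N : ℂ → Λ} (h : Tri N 1) : Hyp N 1 := by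
  intro A B x r hr h1 h2 h3
  rw [one_mul] at h2
  have ult : ∀ a b c : ℂ, N (a - c) ≤ max (N (a - b)) (N (b - c)) := fun a b c => by
    simpa using h.tri (a - b) (b - c)
  obtain ⟨κ, hκ⟩ : ∃ κ : ℂ → Cardinal.{0}, ∀ a b, κ a = κ b ↔ N (a - b) < r := by
    refine ⟨fun z => embeddingToCardinal {y | N (y - z) < r}, fun a b => ?_⟩
    rw [embeddingToCardinal.injective.eq_iff]
    constructor
    · intro e
      have : a ∈ {y | N (y - a) < r} := by
        show N (a - a) < r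
        rw [sub_self, (h.zero 0).2 rfl]
        exact zero_lt_iff.2 hr
      rwa [e] at this
    · intro e
      ext y
      exact ⟨fun k => (ult y a b).trans_lt (max_lt k e),
        fun k => (ult y b a).trans_lt (max_lt k (by rwa [h.swap]))⟩
  obtain ⟨A0, hA0⟩ : ∃ A0, A0 = {a ∈ A | N (a - x) ≤ r} := ⟨_, rfl⟩
  obtain ⟨B0, hB0⟩ : ∃ B0, B0 = {b ∈ B | N (b - x) ≤ r} := ⟨_, rfl⟩
  rw [← hA0] at h2
  rw [← hB0] at h3
  have sA : A0 ⊆ A := hA0 ▸ filter_subset _ _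
  have sB : B0 ⊆ B := hB0 ▸ filter_subset _ _
  have key : ∀ a ∈ A0, ∀ b ∈ B0, κ a ≠ κ b → N (a - b) = r := by
    intro a ha b hb e
    rw [hA0] at ha
    rw [hB0] at hb
    refine le_antisymm ((ult a x b).trans (max_le (mem_filter.1 ha).2 ?_))
      (not_lt.1 fun k => e ((hκ a b).2 k))
    rw [h.swap]
    exact (mem_filter.1 hb).2
  obtain ⟨a0, ha0, m1, m2⟩ := median (A := A0) (card_pos.1 (by omega)) κ
  have f0 : #{z ∈ A0 | κ z = κ a0} ≤ #{z ∈ A | N (z - a0) < r} :=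
    card_le_card fun z hz => mem_filter.2 ⟨sA (mem_filter.1 hz).1, (hκ _ _).1 (mem_filter.1 hz).2⟩
  have f1 := h1 a0 (sA ha0)
  have f2 : #{z ∈ A0 | κ z ≤ κ a0} ≤ #{z ∈ A0 | κ z < κ a0} + #{z ∈ A0 | κ z = κ a0} :=
    (card_le_card fun z hz => by
      simp only [mem_union, mem_filter] at hz ⊢
      rcases hz.2.lt_or_eq with k | k
      · exact Or.inl ⟨hz.1, k⟩
      · exact Or.inr ⟨hz.1, k⟩).trans (card_union_le _ _)
  have f3 : #{z ∈ A0 | κ a0 ≤ κ z} ≤ #{z ∈ A0 | κ a0 < κ z} + #{z ∈ A0 | κ z = κ a0} :=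
    (card_le_card fun z hz => by
      simp only [mem_union, mem_filter] at hz ⊢
      rcases hz.2.lt_or_eq with k | k
      · exact Or.inl ⟨hz.1, k⟩
      · exact Or.inr ⟨hz.1, k.symm⟩).trans (card_union_le _ _)
  have f4 := card_filter_add_card_filter_not (s := B0) (fun b => κ a0 ≤ κ b)
  by_cases f5 : #B0 ≤ 2 * #{b ∈ B0 | κ a0 ≤ κ b}
  · refine ⟨{z ∈ A0 | κ z < κ a0}, (filter_subset _ _).trans sA, {b ∈ B0 | κ a0 ≤ κ b},
      (filter_subset _ _).trans sB, by omega, by omega, fun a ha b hb b' hb' => ?_⟩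
    rw [key a (mem_filter.1 ha).1 b (mem_filter.1 hb).1
        ((mem_filter.1 ha).2.trans_le (mem_filter.1 hb).2).ne,
      key a (mem_filter.1 ha).1 b' (mem_filter.1 hb').1
        ((mem_filter.1 ha).2.trans_le (mem_filter.1 hb').2).ne]
    simp
  · refine ⟨{z ∈ A0 | κ a0 < κ z}, (filter_subset _ _).trans sA, {b ∈ B0 | ¬ κ a0 ≤ κ b},
      (filter_subset _ _).trans sB, by omega, by omega, fun a ha b hb b' hb' => ?_⟩
    rw [key a (mem_filter.1 ha).1 b (mem_filter.1 hb).1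
        ((not_le.1 (mem_filter.1 hb).2).trans (mem_filter.1 ha).2).ne',
      key a (mem_filter.1 ha).1 b' (mem_filter.1 hb').1
        ((not_le.1 (mem_filter.1 hb').2).trans (mem_filter.1 ha).2).ne']
    simp

theorem tri_emb (φ : ℂ →+* ℂ) : Tri (fun z => ‖φ z‖₊) 2 where
  one_le := one_le_two
  neg z := by simp
  tri z w := by
    rw [map_add, two_mul]
    exact (nnnorm_add_le _ _).trans (add_le_add (le_max_left _ _) (le_max_right _ _))
  zero z := by simp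

theorem floor_mem {u r : ℝ} (hr : 0 < r) (h : |u| ≤ 2 * r) : ⌊u / (r / 2)⌋ ∈ Icc (-4 : ℤ) 4 := by
  rw [abs_le] at h
  have h1 : (-4 : ℝ) ≤ u / (r / 2) := by rw [le_div_iff₀ (by positivity)]; linarith
  have h2 : u / (r / 2) ≤ 4 := by rw [div_le_iff₀ (by positivity)]; linarith
  refine mem_Icc.2 ⟨Int.le_floor.2 (by exact_mod_cast h1), ?_⟩
  have := Int.floor_mono h2
  simpa using this

theorem floor_close {u v r : ℝ} (hr : 0 < r) (h : ⌊u / (r / 2)⌋ = ⌊v / (r / 2)⌋) :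
    |u - v| < r / 2 := by
  have := Int.abs_sub_lt_one_of_floor_eq_floor h
  rwa [← sub_div, abs_div, abs_of_pos (half_pos hr), div_lt_one (half_pos hr)] at this

theorem hyp_emb (φ : ℂ →+* ℂ) : Hyp (fun z => ‖φ z‖₊) 2 := by
  intro A B x r hr h1 h2 _
  exfalso
  have hr0 : (0 : ℝ) < r := by exact_mod_cast zero_lt_iff.2 hr
  have h3 := card_le_mul_card_image_of_maps_to (s := {a ∈ A | ‖φ (a - x)‖₊ ≤ 2 * r})
    (f := fun a => (⌊(φ (a - x)).re / (r / 2)⌋, ⌊(φ (a - x)).im / (r / 2)⌋))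
    (t := Icc (-4 : ℤ) 4 ×ˢ Icc (-4 : ℤ) 4) (fun a ha => by
      have h4 : ‖φ (a - x)‖ ≤ 2 * r := by exact_mod_cast (mem_filter.1 ha).2
      exact mem_product.2 ⟨floor_mem hr0 ((Complex.abs_re_le_norm _).trans h4),
        floor_mem hr0 ((Complex.abs_im_le_norm _).trans h4)⟩) (#A / 200) (fun c _ => by
      rcases {a ∈ {a ∈ A | ‖φ (a - x)‖₊ ≤ 2 * r} | (⌊(φ (a - x)).re / (r / 2)⌋,
        ⌊(φ (a - x)).im / (r / 2)⌋) = c}.eq_empty_or_nonempty with h4 | ⟨y, hy⟩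
      · rw [h4]
        simp
      have h5 := h1 y (mem_filter.1 (mem_filter.1 hy).1).1
      refine (card_le_card fun z hz => ?_).trans ((Nat.le_div_iff_mul_le (by norm_num)).2
        (by rw [mul_comm]; exact h5))
      refine mem_filter.2 ⟨(mem_filter.1 (mem_filter.1 hz).1).1, ?_⟩
      have h6 := (mem_filter.1 hz).2.trans (mem_filter.1 hy).2.symm
      have h7 := floor_close hr0 (congrArg Prod.fst h6)
      have h8 := floor_close hr0 (congrArg Prod.snd h6)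
      have h9 : φ (z - y) = φ (z - x) - φ (y - x) := by rw [← map_sub, sub_sub_sub_cancel_right]
      have h10 := Complex.norm_le_abs_re_add_abs_im (φ (z - y))
      rw [h9, Complex.sub_re, Complex.sub_im] at h10
      have h11 : ‖φ (z - y)‖ < r := by rw [h9]; linarith
      exact_mod_cast h11)
  rw [card_product, Int.card_Icc, show ((4 : ℤ) + 1 - -4).toNat = 9 from rfl] at h3
  dsimp only at h2
  omega

theorem window {β : Λ} (hβ : 1 ≤ β) (g : ℂ → Λ) {Q : Finset ℂ} {m : ℕ}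
    (hm : ∀ S ⊆ Q, (∀ b ∈ S, ∀ b' ∈ S, g b ≤ β * g b') → #S ≤ m) (l : Λ) (T : ℕ) :
    #{b ∈ Q | l ≤ g b ∧ g b ≤ β ^ T * l} ≤ (T + 1) * m := by
  have base : ∀ l : Λ, #{b ∈ Q | l ≤ g b ∧ g b ≤ β * l} ≤ m := fun l =>
    hm _ (filter_subset _ _) fun b hb b' hb' =>
      (mem_filter.1 hb).2.2.trans (mul_le_mul_right (mem_filter.1 hb').2.1 _)
  induction T with
  | zero =>
    rw [zero_add, one_mul]
    refine (card_le_card fun b hb => ?_).trans (base l)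
    exact mem_filter.2 ⟨(mem_filter.1 hb).1, (mem_filter.1 hb).2.1,
      (mem_filter.1 hb).2.2.trans (mul_le_mul_left (by simpa using hβ) _)⟩
  | succ T ih =>
    rw [add_mul (T + 1), one_mul]
    refine (card_le_card fun b hb => ?_).trans
      ((card_union_le _ _).trans (add_le_add ih (base (β ^ T * l))))
    simp only [mem_union, mem_filter] at hb ⊢
    rcases le_total (g b) (β ^ T * l) with k | k
    · exact Or.inl ⟨hb.1, hb.2.1, k⟩
    · exact Or.inr ⟨hb.1, k, by rw [← mul_assoc, ← pow_succ']; exact hb.2.2⟩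

theorem gap_split {β : Λ} (hβ : 1 ≤ β) (g : ℂ → Λ) {Q : Finset ℂ} {m : ℕ}
    (hm : ∀ S ⊆ Q, (∀ b ∈ S, ∀ b' ∈ S, g b ≤ β * g b') → #S ≤ m) (T : ℕ) {A B : Finset ℂ}
    (hA : A.Nonempty) (hB : B ⊆ Q) :
    ∃ A' ⊆ A, ∃ B' ⊆ B, #A ≤ 2 * #A' ∧ #B ≤ 2 * #B' + (T + T + 1) * m ∧
      ((∀ a ∈ A', ∀ b ∈ B', β ^ T * g a < g b) ∨ ∀ a ∈ A', ∀ b ∈ B', β ^ T * g b < g a) := by
  obtain ⟨a0, -, m1, m2⟩ := median hA g
  have hβ0 : β ^ T ≠ 0 := pow_ne_zero _ (zero_lt_one.trans_le hβ).ne'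
  have h1 := window hβ g hm (g a0 / β ^ T) (T + T)
  have h2 : #B ≤ #{b ∈ B | β ^ T * g a0 < g b} + (#{b ∈ B | β ^ T * g b < g a0} +
      #{b ∈ Q | g a0 / β ^ T ≤ g b ∧ g b ≤ β ^ (T + T) * (g a0 / β ^ T)}) := by
    refine (card_le_card fun b hb => ?_).trans ((card_union_le _ _).trans
      (add_le_add le_rfl (card_union_le _ _)))
    simp only [mem_union, mem_filter, hb, hB hb, true_and]
    by_contra k
    simp only [not_or, not_lt] at k
    refine k.2.2 ⟨?_, ?_⟩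
    · rw [div_le_iff₀ (zero_lt_iff.2 hβ0), mul_comm]
      exact k.2.1
    · rw [pow_add, mul_assoc, mul_div_cancel₀ _ hβ0]
      exact k.1
  rcases le_total #{b ∈ B | β ^ T * g b < g a0} #{b ∈ B | β ^ T * g a0 < g b} with k | k
  · exact ⟨_, filter_subset _ _, {b ∈ B | β ^ T * g a0 < g b}, filter_subset _ _, m1, by omega,
      Or.inl fun a ha b hb =>
        (mul_le_mul_right (mem_filter.1 ha).2 _).trans_lt (mem_filter.1 hb).2⟩
  · exact ⟨_, filter_subset _ _, {b ∈ B | β ^ T * g b < g a0}, filter_subset _ _, m2, by omega,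
      Or.inr fun a ha b hb => (mem_filter.1 hb).2.trans_le (mem_filter.1 ha).2⟩

theorem row_of_spread {N N' : ℂ → Λ} {β : Λ} (h : Tri N β) (h' : Tri N' β) {c : ℂ} {Q : Finset ℂ}
    (hc : c ∉ Q) {M m : ℕ}
    (hp : ∀ b ∈ Q, ∀ b' ∈ Q, N (b - c) * N' (b - c) ≤ β ^ M * (N (b' - c) * N' (b' - c)))
    (hm : ∀ S ⊆ Q, (∀ b ∈ S, ∀ b' ∈ S, N (b - c) ≤ β * N (b' - c)) → #S ≤ m) {A B : Finset ℂ}
    (hA : A.Nonempty) (hAQ : A ⊆ Q) (hB : B ⊆ Q) :
    ∃ A' ⊆ A, ∃ B' ⊆ B, #A ≤ 2 * #A' ∧ #B ≤ 2 * #B' + (2 * M + 3) * m ∧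
      (Row N β 2 A' B' ∨ Row N' β 2 A' B') := by
  obtain ⟨A', h1, B', h2, h3, h4, h5⟩ :=
    gap_split h.one_le (fun b => N (b - c)) hm (M + 1) hA hB
  refine ⟨A', h1, B', h2, h3, by rwa [show 2 * M + 3 = M + 1 + (M + 1) + 1 by ring], ?_⟩
  rcases h5 with h5 | h5
  · refine Or.inr (h'.row_of_far c fun a ha b hb => ?_)
    by_contra k
    have k1 := hp b (hB (h2 hb)) a (hAQ (h1 ha))
    have k2 : 0 < N' (b - c) := zero_lt_iff.2 fun e =>
      hc (sub_eq_zero.1 ((h'.zero _).1 e) ▸ hB (h2 hb))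
    have k3 := mul_lt_mul_of_pos_right (h5 a ha b hb) k2
    have k4 : β ^ M * (N (a - c) * N' (a - c)) ≤ β ^ M * (N (a - c) * (β * N' (b - c))) :=
      mul_le_mul_right (mul_le_mul_right (not_lt.1 k) _) _
    refine absurd (k1.trans k4) (not_le.2 (lt_of_eq_of_lt ?_ k3))
    rw [pow_succ]
    simp only [mul_assoc, mul_left_comm]
  · refine Or.inl (h.row_of_far c fun a ha b hb => lt_of_le_of_lt ?_ (h5 a ha b hb))
    exact mul_le_mul_left (by simpa using pow_le_pow_right₀ h.one_le (Nat.le_add_left 1 M)) _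

end Pool.Agent.MP_e70dc0_co.H36
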